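import Pool.Agent.Q80.KT.Stm

/-!
# Project KT (helper80), job FIRST: first moment of the large tree components (helper142)
-/

set_option autoImplicit false

open Finset MeasureTheory Filter Topology
open scoped Classical ENNReal NNReal

noncomputable section

namespace Pool.Agent.Q142.KT.FIRST

open Pool.Agent.Q80.KT Pool.Agent.Q287.SR

theorem expLow_nonneg {x : ℝ} (h0 : 0 ≤ x) (h : x ≤ 1 / 2) : Real.exp (x - x ^ 2) ≤ 1 + x := by
  have h1 : 1 - (x - x ^ 2) ≤ Real.exp (-(x - x ^ 2)) := by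
    have := Real.add_one_le_exp (-(x - x ^ 2))
    linarith
  have h2 : 0 < 1 - (x - x ^ 2) := by nlinarith
  have h3 : Real.exp (x - x ^ 2) * Real.exp (-(x - x ^ 2)) = 1 := by
    rw [← Real.exp_add]
    simp
  have h4 : Real.exp (x - x ^ 2) * (1 - (x - x ^ 2)) ≤ 1 := by
    have := mul_le_mul_of_nonneg_left h1 (Real.exp_pos (x - x ^ 2)).le
    rw [h3] at this
    exact this
  have h5 : 1 ≤ (1 + x) * (1 - (x - x ^ 2)) := by nlinarith [pow_nonneg h0 3]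
  exact le_of_mul_le_mul_right (h4.trans h5) h2

theorem expLow_neg {x : ℝ} (h0 : 0 ≤ x) (h : x ≤ 1 / 2) : Real.exp (-x - x ^ 2) ≤ 1 - x := by
  have h1 := Real.quadratic_le_exp_of_nonneg (show 0 ≤ x + x ^ 2 by positivity)
  have h3 : Real.exp (-x - x ^ 2) * Real.exp (x + x ^ 2) = 1 := by
    rw [← Real.exp_add]
    have : -x - x ^ 2 + (x + x ^ 2) = 0 := by ring
    rw [this, Real.exp_zero]
  have h2 : 0 < 1 + (x + x ^ 2) + (x + x ^ 2) ^ 2 / 2 := by positivity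
  have h4 : Real.exp (-x - x ^ 2) * (1 + (x + x ^ 2) + (x + x ^ 2) ^ 2 / 2) ≤ 1 := by
    have := mul_le_mul_of_nonneg_left h1 (Real.exp_pos (-x - x ^ 2)).le
    rw [h3] at this
    exact this
  have h5 : 1 ≤ (1 - x) * (1 + (x + x ^ 2) + (x + x ^ 2) ^ 2 / 2) := by
    have e : (1 - x) * (1 + (x + x ^ 2) + (x + x ^ 2) ^ 2 / 2) =
        1 + x ^ 2 / 2 * (1 - x - x ^ 2 - x ^ 3) := by ring
    rw [e]
    have h6 : 0 ≤ 1 - x - x ^ 2 - x ^ 3 := by
      have a1 : x ^ 2 ≤ (1 / 2) ^ 2 := pow_le_pow_left₀ h0 h 2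
      have a2 : x ^ 3 ≤ (1 / 2) ^ 3 := pow_le_pow_left₀ h0 h 3
      norm_num at a1 a2
      linarith
    have h7 : 0 ≤ x ^ 2 / 2 * (1 - x - x ^ 2 - x ^ 3) := mul_nonneg (by positivity) h6
    linarith
  exact le_of_mul_le_mul_right (h4.trans h5) h2

theorem expLow {x : ℝ} (h : |x| ≤ 1 / 2) : Real.exp (x - x ^ 2) ≤ 1 + x := by
  rcases le_total 0 x with h0 | h0
  · rw [abs_of_nonneg h0] at h
    exact expLow_nonneg h0 h
  · rw [abs_of_nonpos h0] at h
    have := expLow_neg (neg_nonneg.2 h0) h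
    have e : -(-x) - (-x) ^ 2 = x - x ^ 2 := by ring
    rw [e] at this
    linarith

/-- falling factorials -/
theorem desc_low (n : ℕ) (hn : 0 < n) (m : ℕ) (hm : (m : ℝ) ≤ n / 2) :
    (n : ℝ) ^ m * Real.exp (-((m : ℝ) ^ 2 / (2 * n) + (m : ℝ) ^ 3 / (3 * (n : ℝ) ^ 2))) ≤
      (n.descFactorial m : ℝ) := by
  have hn0 : (0 : ℝ) < n := by exact_mod_cast hn
  induction m with
  | zero => simp
  | succ m ih =>
    have hm1 : (m : ℝ) + 1 ≤ n / 2 := by exact_mod_cast hm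
    have ih' := ih (by linarith)
    have hmn : m ≤ n := by
      have : (m : ℝ) ≤ n := by linarith
      exact_mod_cast this
    rw [Nat.descFactorial_succ]
    push_cast [Nat.cast_sub hmn]
    have hx0 : 0 ≤ (m : ℝ) / n := by positivity
    have hx1 : (m : ℝ) / n ≤ 1 / 2 := by
      rw [div_le_iff₀ hn0]
      linarith
    have h1 := expLow_neg hx0 hx1
    have h2 : (n : ℝ) * Real.exp (-((m : ℝ) / n) - ((m : ℝ) / n) ^ 2) ≤ n - m := by
      have h3 := mul_le_mul_of_nonneg_left h1 hn0.le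
      have h4 : (n : ℝ) * (1 - (m : ℝ) / n) = n - m := by field_simp
      linarith
    have h5 : (n : ℝ) ^ (m + 1) * Real.exp (-(((m : ℝ) + 1) ^ 2 / (2 * n) +
        ((m : ℝ) + 1) ^ 3 / (3 * (n : ℝ) ^ 2))) ≤
        ((n : ℝ) * Real.exp (-((m : ℝ) / n) - ((m : ℝ) / n) ^ 2)) *
          ((n : ℝ) ^ m * Real.exp (-((m : ℝ) ^ 2 / (2 * n) + (m : ℝ) ^ 3 / (3 * (n : ℝ) ^ 2)))) := by
      have e1 : ((n : ℝ) * Real.exp (-((m : ℝ) / n) - ((m : ℝ) / n) ^ 2)) *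
          ((n : ℝ) ^ m * Real.exp (-((m : ℝ) ^ 2 / (2 * n) + (m : ℝ) ^ 3 / (3 * (n : ℝ) ^ 2)))) =
          (n : ℝ) ^ (m + 1) * Real.exp ((-((m : ℝ) / n) - ((m : ℝ) / n) ^ 2) +
            (-((m : ℝ) ^ 2 / (2 * n) + (m : ℝ) ^ 3 / (3 * (n : ℝ) ^ 2)))) := by
        rw [Real.exp_add]
        ring
      rw [e1]
      refine mul_le_mul_of_nonneg_left (Real.exp_le_exp.2 ?_) (by positivity)
      have e2 : ((-((m : ℝ) / n) - ((m : ℝ) / n) ^ 2) +
            (-((m : ℝ) ^ 2 / (2 * n) + (m : ℝ) ^ 3 / (3 * (n : ℝ) ^ 2)))) -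
          (-(((m : ℝ) + 1) ^ 2 / (2 * n) + ((m : ℝ) + 1) ^ 3 / (3 * (n : ℝ) ^ 2))) =
          1 / (2 * n) + (3 * (m : ℝ) + 1) / (3 * (n : ℝ) ^ 2) := by
        field_simp
        ring
      have h6 : 0 ≤ 1 / (2 * (n : ℝ)) + (3 * (m : ℝ) + 1) / (3 * (n : ℝ) ^ 2) := by positivity
      linarith
    refine h5.trans (mul_le_mul h2 ih' (by positivity) ?_)
    linarith

theorem fact_up (m : ℕ) (hm : 1 ≤ m) :
    (m.factorial : ℝ) ≤ Real.exp 1 * Real.sqrt m * ((m : ℝ) / Real.exp 1) ^ m := by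
  obtain ⟨k, rfl⟩ : ∃ k, m = k + 1 := ⟨m - 1, by omega⟩
  have h : Stirling.stirlingSeq (k + 1) ≤ Stirling.stirlingSeq 1 :=
    Stirling.stirlingSeq'_antitone (Nat.zero_le k)
  rw [Stirling.stirlingSeq_one] at h
  unfold Stirling.stirlingSeq at h
  have hm0 : (0 : ℝ) < ((k + 1 : ℕ) : ℝ) := by positivity
  have hpos : 0 < Real.sqrt (2 * ((k + 1 : ℕ) : ℝ)) * (((k + 1 : ℕ) : ℝ) / Real.exp 1) ^ (k + 1) := by
    positivity
  rw [div_le_iff₀ hpos] at h
  refine h.trans (le_of_eq ?_)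
  rw [Real.sqrt_mul (by norm_num : (0 : ℝ) ≤ 2)]
  have h2 : Real.sqrt 2 ≠ 0 := by positivity
  field_simp

/-- the main estimate for one size -/
theorem term_low (lam : ℝ) (n m : ℕ) (N : ℝ) (hN3 : N ^ 3 = n) (hN8 : 8 ≤ N) (hNl : 2 * |lam| ≤ N)
    (hm2 : 2 ≤ m) (hm4 : (m : ℝ) ≤ 4 * N ^ 2) (p : ℝ) (hp : p = (1 + lam / N) / n) :
    (n : ℝ) / (Real.exp 1 * (m : ℝ) ^ 2 * Real.sqrt m) *
        Real.exp (-(38 + 9 * |lam| + 4 * lam ^ 2)) ≤
      (n.choose m : ℝ) * ((m : ℝ) ^ (m - 2) * p ^ (m - 1) *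
        (1 - p) ^ (m.choose 2 - (m - 1) + m * (n - m))) := by
  have hN0 : 0 < N := by linarith
  have hn0 : (0 : ℝ) < n := by
    rw [← hN3]
    positivity
  have hn : 0 < n := by exact_mod_cast hn0
  have hm0 : (0 : ℝ) < m := by
    have : 0 < m := by omega
    exact_mod_cast this
  have hmhalf : (m : ℝ) ≤ n / 2 := by
    rw [← hN3]
    nlinarith [sq_nonneg N]
  have hmn : m ≤ n := by
    have : (m : ℝ) ≤ n := by linarith
    exact_mod_cast this
  -- the small quantity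
  have hx : |lam / N| ≤ 1 / 2 := by
    rw [abs_div, abs_of_pos hN0, div_le_iff₀ hN0]
    linarith
  have hx2 := abs_le.1 hx
  have hlamN : |lam / N| ≤ |lam| := by
    rw [abs_div, abs_of_pos hN0]
    exact div_le_self (abs_nonneg _) (by linarith)
  have hp0 : 0 < p := by
    rw [hp]
    exact div_pos (by linarith) hn0
  have hp2 : p ≤ 2 / n := by
    rw [hp]
    exact div_le_div_of_nonneg_right (by linarith) hn0.le
  have hn4 : (4 : ℝ) ≤ n := by
    rw [← hN3]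
    nlinarith [sq_nonneg N]
  have hphalf : p ≤ 1 / 2 := by
    refine hp2.trans ?_
    rw [div_le_iff₀ hn0]
    linarith
  -- (1), (2)
  have hd := desc_low n hn m hmhalf
  rw [Nat.descFactorial_eq_factorial_mul_choose] at hd
  push_cast at hd
  have hf := fact_up m (by omega)
  obtain ⟨a1, ha1⟩ : ∃ a1, a1 = (m : ℝ) ^ 2 / (2 * n) + (m : ℝ) ^ 3 / (3 * (n : ℝ) ^ 2) := ⟨_, rfl⟩
  rw [← ha1] at hd
  have hC0 : (0 : ℝ) ≤ (n.choose m : ℝ) := Nat.cast_nonneg _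
  have hC : (n : ℝ) ^ m * Real.exp (-a1) / (Real.exp 1 * Real.sqrt m *
      ((m : ℝ) / Real.exp 1) ^ m) ≤ (n.choose m : ℝ) := by
    rw [div_le_iff₀ (by positivity)]
    refine hd.trans ?_
    rw [mul_comm]
    exact mul_le_mul_of_nonneg_left hf hC0
  -- (3)
  have hp3 : (1 / (n : ℝ)) ^ (m - 1) * Real.exp (((m : ℝ) - 1) * (lam / N - (lam / N) ^ 2)) ≤
      p ^ (m - 1) := by
    have h1 := expLow hx
    have h2 : 1 / (n : ℝ) * Real.exp (lam / N - (lam / N) ^ 2) ≤ p := by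
      rw [hp, div_eq_mul_one_div (1 + lam / N), mul_comm]
      exact mul_le_mul_of_nonneg_right h1 (by positivity)
    have h3 := pow_le_pow_left₀ (by positivity) h2 (m - 1)
    rw [mul_pow, ← Real.exp_nat_mul] at h3
    have h4 : ((m - 1 : ℕ) : ℝ) = (m : ℝ) - 1 := by
      rw [Nat.cast_sub (by omega)]
      simp
    rw [h4] at h3
    exact h3
  -- (4)
  obtain ⟨E, hE⟩ : ∃ E : ℕ, E = m.choose 2 - (m - 1) + m * (n - m) := ⟨_, rfl⟩
  rw [← hE]
  have hEle : (E : ℝ) ≤ m * n - (m : ℝ) ^ 2 / 2 := by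
    have h1 : m - 1 ≤ m.choose 2 := by
      rw [Nat.choose_two_right, Nat.le_div_iff_mul_le (by norm_num)]
      rw [mul_comm]
      exact Nat.mul_le_mul_right _ hm2
    rw [hE]
    push_cast [Nat.cast_sub h1, Nat.cast_sub hmn]
    rw [Nat.cast_choose_two, Nat.cast_sub (by omega : 1 ≤ m)]
    push_cast
    have hm2' : (2 : ℝ) ≤ m := by exact_mod_cast hm2
    linarith
  have hp4 : Real.exp (-(p + p ^ 2) * E) ≤ (1 - p) ^ E := by
    have h1 := expLow_neg hp0.le hphalf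
    have h2 := pow_le_pow_left₀ (Real.exp_pos _).le h1 E
    rw [← Real.exp_nat_mul] at h2
    refine le_trans (le_of_eq ?_) h2
    congr 1
    ring
  have hm5 : (m : ℝ) ^ (m - 2) = (m : ℝ) ^ m / (m : ℝ) ^ 2 := by
    rw [eq_div_iff (by positivity), ← pow_add]
    congr 1
    omega
  have hn5 : (1 / (n : ℝ)) ^ (m - 1) = n / (n : ℝ) ^ m := by
    rw [one_div, inv_pow, eq_div_iff (by positivity)]
    have : (n : ℝ) ^ m = (n : ℝ) ^ (m - 1) * n := by
      rw [← pow_succ]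
      congr 1
      omega
    rw [this]
    field_simp
  have hprod : ((n : ℝ) ^ m * Real.exp (-a1) / (Real.exp 1 * Real.sqrt m *
      ((m : ℝ) / Real.exp 1) ^ m)) * ((m : ℝ) ^ (m - 2) *
      ((1 / (n : ℝ)) ^ (m - 1) * Real.exp (((m : ℝ) - 1) * (lam / N - (lam / N) ^ 2))) *
      Real.exp (-(p + p ^ 2) * E)) ≤ (n.choose m : ℝ) * ((m : ℝ) ^ (m - 2) * p ^ (m - 1) *
        (1 - p) ^ E) := by
    refine mul_le_mul hC ?_ (by positivity) hC0
    refine mul_le_mul ?_ hp4 (Real.exp_pos _).le (by positivity)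
    exact mul_le_mul_of_nonneg_left hp3 (by positivity)
  refine le_trans ?_ hprod
  have hexp : ((n : ℝ) ^ m * Real.exp (-a1) / (Real.exp 1 * Real.sqrt m *
      ((m : ℝ) / Real.exp 1) ^ m)) * ((m : ℝ) ^ (m - 2) *
      ((1 / (n : ℝ)) ^ (m - 1) * Real.exp (((m : ℝ) - 1) * (lam / N - (lam / N) ^ 2))) *
      Real.exp (-(p + p ^ 2) * E)) = (n : ℝ) / (Real.exp 1 * (m : ℝ) ^ 2 * Real.sqrt m) *
        Real.exp (-a1 + m + ((m : ℝ) - 1) * (lam / N - (lam / N) ^ 2) + -(p + p ^ 2) * E) := by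
    rw [hm5, hn5, div_pow, ← Real.exp_nat_mul, mul_one, Real.exp_add, Real.exp_add, Real.exp_add]
    field_simp
  rw [hexp]
  refine mul_le_mul_of_nonneg_left (Real.exp_le_exp.2 ?_) (by positivity)
  -- the exponent
  have hpn : p * n = 1 + lam / N := by
    rw [hp]
    field_simp
  have hpE : p * E ≤ m - (m : ℝ) ^ 2 / (2 * n) + lam / N * m - lam / N * ((m : ℝ) ^ 2 / (2 * n)) := by
    have h1 := mul_le_mul_of_nonneg_left hEle hp0.le
    have h2 : p * (m * n - (m : ℝ) ^ 2 / 2) = (p * n) * (m - (m : ℝ) ^ 2 / (2 * n)) := by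
      field_simp
    rw [h2, hpn] at h1
    linarith
  have hmN : (m : ℝ) / N ^ 2 ≤ 4 := by
    rw [div_le_iff₀ (by positivity)]
    exact hm4
  have hm22 : (m : ℝ) ^ 2 ≤ 16 * N ^ 4 := by
    have := pow_le_pow_left₀ hm0.le hm4 2
    nlinarith
  have hm33 : (m : ℝ) ^ 3 ≤ 64 * N ^ 6 := by
    have := pow_le_pow_left₀ hm0.le hm4 3
    nlinarith
  have b1 : (m : ℝ) ^ 3 / (3 * (n : ℝ) ^ 2) ≤ 22 := by
    rw [← hN3, div_le_iff₀ (by positivity)]
    have : 0 < N ^ 6 := by positivity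
    nlinarith
  have b2 : lam / N ≤ |lam| := (le_abs_self _).trans hlamN
  have b3 : ((m : ℝ) - 1) * (lam / N) ^ 2 ≤ 4 * lam ^ 2 := by
    have h1 : ((m : ℝ) - 1) * (lam / N) ^ 2 ≤ m * (lam / N) ^ 2 :=
      mul_le_mul_of_nonneg_right (by linarith) (sq_nonneg _)
    have h2 : (m : ℝ) * (lam / N) ^ 2 = (m / N ^ 2) * lam ^ 2 := by
      field_simp
    rw [h2] at h1
    exact h1.trans (mul_le_mul_of_nonneg_right hmN (sq_nonneg _))
  have b4 : -(8 * |lam|) ≤ lam / N * ((m : ℝ) ^ 2 / (2 * n)) := by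
    have h1 : |lam / N * ((m : ℝ) ^ 2 / (2 * n))| ≤ 8 * |lam| := by
      rw [abs_mul, abs_div, abs_of_pos hN0, abs_of_pos (by positivity :
        0 < (m : ℝ) ^ 2 / (2 * n)), ← hN3, div_mul_div_comm, div_le_iff₀ (by positivity)]
      have h2 := mul_le_mul_of_nonneg_left hm22 (abs_nonneg lam)
      have h3 : 8 * |lam| * (N * (2 * N ^ 3)) = |lam| * (16 * N ^ 4) := by ring
      rw [h3]
      exact h2
    exact (abs_le.1 h1).1
  have b5 : p ^ 2 * E ≤ 16 := by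
    have hEle2 : (E : ℝ) ≤ m * n := by
      have := sq_nonneg (m : ℝ)
      linarith
    have h1 : p ^ 2 ≤ (2 / n) ^ 2 := pow_le_pow_left₀ hp0.le hp2 2
    have h2 : p ^ 2 * E ≤ (2 / n) ^ 2 * (m * n) :=
      mul_le_mul h1 hEle2 (Nat.cast_nonneg _) (by positivity)
    have h3 : (2 / (n : ℝ)) ^ 2 * (m * n) = 4 * m / n := by
      field_simp
      ring
    rw [h3] at h2
    refine h2.trans ?_
    rw [div_le_iff₀ hn0, ← hN3]
    nlinarith [sq_nonneg N]
  rw [ha1]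
  linarith

/-- the expectation as a sum over the sizes -/
theorem ex_eq (h1 : S_T1) (n k : ℕ) (p : ℝ) (hk : 1 ≤ k) :
    Ex n p (XT n k) = ∑ m ∈ range (n + 1), (n.choose m : ℝ) *
      (if k ≤ m ∧ m ≤ 2 * k then ((m : ℝ) ^ (m - 2) * p ^ (m - 1) *
        (1 - p) ^ (m.choose 2 - (m - 1) + m * (n - m))) else 0) := by
  unfold XT
  rw [Ex_sum]
  have e1 : ∀ S : Finset (Fin n), Ex n p (fun G => if k ≤ S.card ∧ S.card ≤ 2 * k then
      ind (TreeComp G S) else 0) = if k ≤ S.card ∧ S.card ≤ 2 * k then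
        ((S.card : ℝ) ^ (S.card - 2) * p ^ (S.card - 1) *
        (1 - p) ^ (S.card.choose 2 - (S.card - 1) + S.card * (n - S.card))) else 0 := by
    intro S
    by_cases h : k ≤ S.card ∧ S.card ≤ 2 * k
    · simp only [if_pos h]
      exact h1 n S.card p S (by omega) rfl
    · simp only [if_neg h]
      exact Ex_const p 0
  rw [sum_congr rfl fun S _ => e1 S]
  have e2 := sum_powerset_apply_card (fun m => if k ≤ m ∧ m ≤ 2 * k then
    ((m : ℝ) ^ (m - 2) * p ^ (m - 1) * (1 - p) ^ (m.choose 2 - (m - 1) + m * (n - m))) else 0)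
    (x := (univ : Finset (Fin n)))
  rw [powerset_univ, card_univ, Fintype.card_fin] at e2
  rw [e2]
  refine sum_congr rfl fun m _ => ?_
  rw [nsmul_eq_mul]

theorem t_FIRST : S_T1 → S_FIRST := by
  intro h1 lam
  obtain ⟨K, hK⟩ : ∃ K, K = Real.exp (-(38 + 9 * |lam| + 4 * lam ^ 2)) := ⟨_, rfl⟩
  have hK0 : 0 < K := by
    rw [hK]
    exact Real.exp_pos _
  refine ⟨K / (16 * Real.exp 1), by positivity, ?_⟩
  intro δ hδ hδ1
  have hlim : Tendsto (fun n : ℕ => (n : ℝ) ^ ((1 : ℝ) / 3)) atTop atTop :=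
    (tendsto_rpow_atTop (by norm_num)).comp tendsto_natCast_atTop_atTop
  filter_upwards [hlim.eventually_ge_atTop 8, hlim.eventually_ge_atTop (2 * |lam|),
    hlim.eventually_ge_atTop (2 / δ)] with n hn8 hnl hnδ
  obtain ⟨N, hN⟩ : ∃ N, N = (n : ℝ) ^ ((1 : ℝ) / 3) := ⟨_, rfl⟩
  rw [← hN] at hn8 hnl hnδ
  have hn0' : (0 : ℝ) ≤ n := Nat.cast_nonneg n
  have hN3 : N ^ 3 = n := by
    rw [hN, ← Real.rpow_natCast, ← Real.rpow_mul hn0']
    norm_num
  have hN2 : (n : ℝ) ^ ((2 : ℝ) / 3) = N ^ 2 := by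
    rw [hN, ← Real.rpow_natCast, ← Real.rpow_mul hn0']
    norm_num
  have hN4 : (n : ℝ) ^ ((4 : ℝ) / 3) = N ^ 4 := by
    rw [hN, ← Real.rpow_natCast, ← Real.rpow_mul hn0']
    norm_num
  have hN0 : 0 < N := by linarith
  have hn0 : (0 : ℝ) < n := by
    rw [← hN3]
    positivity
  rw [hN2]
  have hp : pN lam n = (1 + lam / N) / n := by
    unfold pN
    rw [hN4, ← hN3]
    field_simp
  obtain ⟨k, hk⟩ : ∃ k, k = ⌈δ * N ^ 2⌉₊ := ⟨_, rfl⟩
  rw [← hk]
  have hδN : 2 ≤ δ * N := by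
    rw [div_le_iff₀ hδ] at hnδ
    linarith
  have hδN2 : 16 ≤ δ * N ^ 2 := by nlinarith
  have hk1 : δ * N ^ 2 ≤ k := by
    rw [hk]
    exact Nat.le_ceil _
  have hk2 : (k : ℝ) ≤ 2 * (δ * N ^ 2) := by
    have : (k : ℝ) < δ * N ^ 2 + 1 := by
      rw [hk]
      exact Nat.ceil_lt_add_one (by linarith)
    linarith
  have hk16 : 2 ≤ k := by
    have : (2 : ℝ) ≤ k := by linarith
    exact_mod_cast this
  have hk0 : (0 : ℝ) < k := by linarith
  have h2k : (2 * (k : ℝ)) ≤ 4 * N ^ 2 := by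
    have : δ * N ^ 2 ≤ 1 * N ^ 2 := mul_le_mul_of_nonneg_right hδ1 (sq_nonneg _)
    linarith
  have h2kn : 2 * k ≤ n := by
    have h3 : (2 * (k : ℝ)) ≤ n := by
      rw [← hN3]
      nlinarith [sq_nonneg N]
    exact_mod_cast h3
  rw [ex_eq h1 n k _ (by omega), hp]
  have hsub : Finset.Icc k (2 * k) ⊆ range (n + 1) := by
    intro m hm
    rw [Finset.mem_Icc] at hm
    exact mem_range.2 (by omega)
  have hp0 : 0 ≤ (1 + lam / N) / (n : ℝ) := by
    have hx : |lam / N| ≤ 1 / 2 := by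
      rw [abs_div, abs_of_pos hN0, div_le_iff₀ hN0]
      linarith
    have := (abs_le.1 hx).1
    exact div_nonneg (by linarith) hn0.le
  have hp1 : 0 ≤ 1 - (1 + lam / N) / (n : ℝ) := by
    have hx : |lam / N| ≤ 1 / 2 := by
      rw [abs_div, abs_of_pos hN0, div_le_iff₀ hN0]
      linarith
    have := (abs_le.1 hx).2
    have h4 : (4 : ℝ) ≤ n := by
      rw [← hN3]
      nlinarith [sq_nonneg N]
    have h5 : (1 + lam / N) / (n : ℝ) ≤ 1 := by
      rw [div_le_iff₀ hn0]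
      linarith
    linarith
  refine le_trans ?_ (sum_le_sum_of_subset_of_nonneg hsub fun m _ _ => ?_)
  swap
  · refine mul_nonneg (Nat.cast_nonneg _) ?_
    split_ifs
    · positivity
    · exact le_refl _
  have hterm : ∀ m ∈ Finset.Icc k (2 * k), (n : ℝ) / (Real.exp 1 * (2 * (k : ℝ)) ^ 2 *
      Real.sqrt (2 * k)) * K ≤ (n.choose m : ℝ) *
      (if k ≤ m ∧ m ≤ 2 * k then ((m : ℝ) ^ (m - 2) * ((1 + lam / N) / n) ^ (m - 1) *
        (1 - (1 + lam / N) / n) ^ (m.choose 2 - (m - 1) + m * (n - m))) else 0) := by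
    intro m hm
    rw [Finset.mem_Icc] at hm
    rw [if_pos hm]
    have hm2k : (m : ℝ) ≤ 2 * k := by exact_mod_cast hm.2
    have hm0 : (0 : ℝ) < m := by
      have : (k : ℝ) ≤ m := by exact_mod_cast hm.1
      linarith
    refine le_trans ?_ (term_low lam n m N hN3 hn8 hnl (by omega) (hm2k.trans h2k) _ rfl)
    rw [← hK]
    refine mul_le_mul_of_nonneg_right ?_ hK0.le
    refine div_le_div_of_nonneg_left hn0.le (by positivity) ?_
    refine mul_le_mul ?_ (Real.sqrt_le_sqrt hm2k) (Real.sqrt_nonneg _) (by positivity)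
    exact mul_le_mul_of_nonneg_left (pow_le_pow_left₀ hm0.le hm2k 2) (Real.exp_pos _).le
  refine le_trans ?_ (sum_le_sum hterm)
  rw [sum_const, Nat.card_Icc, nsmul_eq_mul]
  have hcard : (k : ℝ) ≤ ((2 * k + 1 - k : ℕ) : ℝ) := by
    have : k ≤ 2 * k + 1 - k := by omega
    exact_mod_cast this
  refine le_trans ?_ (mul_le_mul_of_nonneg_right hcard (by positivity))
  -- final computation
  have hsq : Real.sqrt (2 * k) ≤ 2 * Real.sqrt δ * N := by
    have h3 : (2 * (k : ℝ)) ≤ (2 * Real.sqrt δ * N) ^ 2 := by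
      have h4 : (2 * Real.sqrt δ * N) ^ 2 = 4 * (δ * N ^ 2) := by
        rw [mul_pow, mul_pow, Real.sq_sqrt hδ.le]
        ring
      rw [h4]
      linarith
    calc Real.sqrt (2 * k) ≤ Real.sqrt ((2 * Real.sqrt δ * N) ^ 2) := Real.sqrt_le_sqrt h3
      _ = 2 * Real.sqrt δ * N := Real.sqrt_sq (by positivity)
  have hδr : δ ^ (-(3 : ℝ) / 2) = 1 / (δ * Real.sqrt δ) := by
    have e1 : (-(3 : ℝ) / 2) = -((1 : ℝ) + 1 / 2) := by norm_num
    rw [e1, Real.rpow_neg hδ.le, Real.rpow_add hδ, Real.rpow_one, ← Real.sqrt_eq_rpow, one_div]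
  have hsδ : 0 < Real.sqrt δ := Real.sqrt_pos.2 hδ
  have hs2k : 0 < Real.sqrt (2 * k) := Real.sqrt_pos.2 (by linarith)
  rw [hδr]
  have e3 : (k : ℝ) * ((n : ℝ) / (Real.exp 1 * (2 * (k : ℝ)) ^ 2 * Real.sqrt (2 * k)) * K) =
      (K / Real.exp 1) * ((n : ℝ) / (4 * ((k : ℝ) * Real.sqrt (2 * k)))) := by
    field_simp
    ring
  have e4 : K / (16 * Real.exp 1) * (1 / (δ * Real.sqrt δ)) =
      (K / Real.exp 1) * (1 / (16 * (δ * Real.sqrt δ))) := by
    field_simp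
  rw [e3, e4]
  refine mul_le_mul_of_nonneg_left ?_ (by positivity)
  rw [div_le_div_iff₀ (by positivity) (by positivity), one_mul]
  have h5 : (k : ℝ) * Real.sqrt (2 * k) ≤ (2 * (δ * N ^ 2)) * (2 * Real.sqrt δ * N) :=
    mul_le_mul hk2 hsq hs2k.le (by positivity)
  have h6 : (2 * (δ * N ^ 2)) * (2 * Real.sqrt δ * N) = 4 * (δ * Real.sqrt δ) * n := by
    rw [← hN3]
    ring
  rw [h6] at h5
  linarith

end Pool.Agent.Q142.KT.FIRST
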